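import Pool.Agent.Q127.HS.Near

/-!
Proper colourings with prescribed class sizes (a generalisation of the Hajnal-Szemeredi theorem).
-/

set_option autoImplicit false
set_option linter.unusedSectionVars false

namespace Q127.HS

variable {V ι : Type*} [DecidableEq V] [DecidableEq ι]

theorem near_exact (G : SimpleGraph V) (U : Finset V) (C : Finset ι) (n : ι → ℕ) (r s : ℕ)
    (hdeg : ∀ v ∈ U, dg G U v ≤ r) (hs : ∀ c ∈ C, n c ≤ s) (hU : (r + 1) * s ≤ U.card)
    (hsum : ∑ c ∈ C, n c = U.card)
    (IH : ∀ U' ⊂ U, ∀ C' ⊆ C, ∀ r', (∀ v ∈ U', dg G U' v ≤ r') → (r' + 1) * s ≤ U'.card →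
      ∑ c ∈ C', n c = U'.card → ∃ g, Exact G U' C' n g) :
    ∀ (k : ℕ) (f : V → ι) (a b : ι), Near G U C n f a b → (C \ Acc G U C f a).card = k →
      ∃ g, Exact G U C n g := by
  classical
  intro k
  induction k using Nat.strong_induction_on with
  | _ k ihk =>
  intro f a b hf hk
  obtain ⟨hprop, haC, hbC, hcard⟩ := hf
  set A := Acc G U C f a with hA
  have hAC : A ⊆ C := fun c hc => (mem_Acc.1 (hA ▸ hc)).1
  have haA : a ∈ A := hA ▸ mem_Acc.2 ⟨haC, Relation.ReflTransGen.refl⟩
  by_cases hbA : b ∈ A
  · obtain ⟨l, hl⟩ := exists_path (mem_Acc.1 (hA ▸ hbA)).2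
    have hlC : ∀ x ∈ b :: l, x ∈ C := IsPath.all l b hl hbC (fun x y h => h.2.1)
    have hl' : IsPath (E G U f) a b l := IsPath.mono l b hl (fun _ _ _ _ _ h => h.2.2)
    obtain ⟨f', h1, _, _, h4⟩ := shift G U C a l b f hl' hlC hprop
    refine ⟨f', h1, fun c hc => ?_⟩
    have h5 := h4 c
    have h6 := hcard c hc
    omega
  · have hab : a ≠ b := by rintro rfl; exact hbA haA
    set B := Bs U f A with hB
    have hBU : B ⊆ U := Finset.filter_subset _ _
    have hBA : ∀ y ∈ B, ∀ c ∈ A, 1 ≤ dg G (cl U f c) y := by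
      intro y hy c hc
      by_contra hcon
      rw [not_dg] at hcon
      rw [hB, Bs, Finset.mem_filter] at hy
      apply hy.2
      have h1 := (mem_Acc.1 (hA ▸ hc))
      have hyC := hprop.1 y hy.1
      rw [hA]
      exact mem_Acc.2 ⟨hyC, Relation.ReflTransGen.head ⟨hyC, h1.1, y, hy.1, rfl, hcon⟩ h1.2⟩
    -- `B` is nonempty
    have hBne : ∃ y, y ∈ B := by
      have h1 := hcard b hbC
      rw [if_neg hab.symm, if_pos rfl] at h1
      have h2 : 0 < (cl U f b).card := by omega
      obtain ⟨y, hy⟩ := Finset.card_pos.1 h2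
      rw [mem_cl] at hy
      exact ⟨y, Finset.mem_filter.2 ⟨hy.1, by rw [hy.2]; exact hbA⟩⟩
    have hdBA : ∀ y ∈ B, dg G B y + A.card ≤ r := by
      intro y hy
      have h1 := dg_split G U f A y
      have h2 := hdeg y (hBU hy)
      have h3 : A.card ≤ ∑ c ∈ A, dg G (cl U f c) y := by
        rw [Finset.card_eq_sum_ones]
        exact Finset.sum_le_sum fun c hc => hBA y hy c hc
      rw [← hB] at h1
      omega
    have hAr : A.card ≤ r := by
      obtain ⟨y, hy⟩ := hBne
      have := hdBA y hy
      omega
    obtain ⟨q, hq⟩ : ∃ q, q + A.card = r + 1 := ⟨r + 1 - A.card, by omega⟩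
    obtain ⟨r', hr'⟩ : ∃ r', r' + 1 = q := ⟨q - 1, by omega⟩
    have hAsum : ∑ c ∈ A, (cl U f c).card + 1 = ∑ c ∈ A, n c := by
      have h1 : ∑ c ∈ A, ((cl U f c).card + (if c = a then 1 else 0)) =
          ∑ c ∈ A, (n c + (if c = b then 1 else 0)) :=
        Finset.sum_congr rfl fun c hc => hcard c (hAC hc)
      rw [Finset.sum_add_distrib, Finset.sum_add_distrib, Finset.sum_ite_eq' A a (fun _ => 1),
        Finset.sum_ite_eq' A b (fun _ => 1), if_pos haA, if_neg hbA] at h1
      omega
    have hAs : ∑ c ∈ A, n c ≤ A.card * s := by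
      have := Finset.sum_le_sum (fun c hc => hs c (hAC hc) : ∀ c ∈ A, n c ≤ s)
      rwa [Finset.sum_const, smul_eq_mul] at this
    have hsplit := card_split U f A
    rw [← hB] at hsplit
    have hmul : q * s + A.card * s = (r + 1) * s := by rw [← hq]; ring
    have hBcard : q * s + 1 ≤ B.card := by omega
    have hCAsum : ∑ c ∈ C \ A, n c + 1 = B.card := by
      have h1 := Finset.sum_sdiff (f := n) hAC
      omega
    have IH' : ∀ y ∈ B, ∃ g, Exact G (B.erase y) (C \ A) n g := by
      intro y hy
      have hcardE : (B.erase y).card + 1 = B.card := by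
        rw [Finset.card_erase_of_mem hy]
        have : 0 < B.card := Finset.card_pos.2 ⟨y, hy⟩
        omega
      refine IH (B.erase y) ?_ (C \ A) Finset.sdiff_subset r' ?_ ?_ ?_
      · exact Finset.ssubset_of_ssubset_of_subset (Finset.erase_ssubset hy) hBU
      · intro v hv
        have h1 := hdBA v (Finset.mem_of_mem_erase hv)
        have h2 := dg_mono G (Finset.erase_subset y B) v
        omega
      · rw [hr']
        omega
      · omega
    have hcls : ∀ c ∈ A, (cl U f c).card ≤ n c := by
      intro c hc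
      have h1 := hcard c (hAC hc)
      have h2 : c ≠ b := fun h => hbA (h ▸ hc)
      rw [if_neg h2] at h1
      omega
    have hs1 : 1 ≤ s := by
      have h1 := hcard a haC
      rw [if_pos rfl, if_neg hab] at h1
      have h2 := hs a haC
      omega
    have hAne : A ≠ {a} := by
      intro hAa
      have h1 : B.card ≤ ∑ y ∈ B, dg G (cl U f a) y := by
        rw [Finset.card_eq_sum_ones]
        exact Finset.sum_le_sum fun y hy => hBA y hy a haA
      rw [sum_dg_comm] at h1
      have h2 : ∑ x ∈ cl U f a, dg G B x ≤ (cl U f a).card * r := by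
        have := Finset.sum_le_sum (fun x hx => (dg_mono G hBU x).trans
          (hdeg x (mem_cl.1 hx).1) : ∀ x ∈ cl U f a, dg G B x ≤ r)
        rwa [Finset.sum_const, smul_eq_mul] at this
      have h3 : A.card = 1 := by rw [hAa, Finset.card_singleton]
      have h4 := hcard a haC
      rw [if_pos rfl, if_neg hab] at h4
      have h5 := hs a haC
      have h6 : q = r := by omega
      rw [h6] at hBcard
      have h7 : (cl U f a).card * r ≤ s * r := Nat.mul_le_mul_right _ (by omega)
      nlinarith
    obtain ⟨u, huA, T, hTA, hTne, huT, haT, hterm, hno⟩ := exists_terminal (E G U f) A a haA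
      (by
        intro c hc
        have h1 := (mem_Acc.1 (hA ▸ hc)).2
        induction h1 using Relation.ReflTransGen.head_induction_on with
        | refl => exact Relation.ReflTransGen.refl
        | @head c d hcd hda ih =>
          have hdA : d ∈ A := hA ▸ mem_Acc.2 ⟨hcd.2.1, hda⟩
          exact Relation.ReflTransGen.head ⟨hc, hdA, hcd.2.2⟩ (ih hdA)) hAne
    by_cases hc1 : ∃ y z, Solo G U f A T y z ∧ ∃ X ∈ A, X ≠ f z ∧ Mv G U f z X
    · obtain ⟨y, z, hs2, X, hX, hXz, hmv⟩ := hc1
      exact case_one G U C n f a b A T hprop hAC hTA hbA hcard hterm IH' y z hs2 X hX hXz hmv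
    · have hsolo : ∀ y z, Solo G U f A T y z → ∀ c ∈ A, c ≠ f z → 1 ≤ dg G (cl U f c) z := by
        intro y z hs2 c hc hcz
        by_contra hcon
        exact hc1 ⟨y, z, hs2, c, hc, hcz, not_dg.1 hcon⟩
      by_cases hc2 : ∃ y1 y2 z, Solo G U f A T y1 z ∧ Solo G U f A T y2 z ∧ y1 ≠ y2 ∧
          ¬ G.Adj y1 y2
      · obtain ⟨y1, y2, z, h1, h2, h3, h4⟩ := hc2
        have hdq : ∀ z ∈ U, (∀ c ∈ A, c ≠ f z → 1 ≤ dg G (cl U f c) z) → dg G B z ≤ q := by
          intro z hz hz2
          have h1 := dg_split G U f A z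
          have h2 := hdeg z hz
          have h3 : (A.erase (f z)).card ≤ ∑ c ∈ A, dg G (cl U f c) z := by
            rw [Finset.card_eq_sum_ones]
            calc ∑ c ∈ A.erase (f z), 1 ≤ ∑ c ∈ A.erase (f z), dg G (cl U f c) z := by
                  refine Finset.sum_le_sum fun c hc => ?_
                  exact hz2 c (Finset.mem_of_mem_erase hc) (Finset.ne_of_mem_erase hc)
              _ ≤ ∑ c ∈ A, dg G (cl U f c) z :=
                  Finset.sum_le_sum_of_subset (Finset.erase_subset _ _)
          have h4 : A.card - 1 ≤ (A.erase (f z)).card := Finset.pred_card_le_card_erase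
          rw [← hB] at h1
          omega
        have hCq : q ≤ (C \ A).card := by
          have h5 : ∑ c ∈ C \ A, n c ≤ (C \ A).card * s := by
            have := Finset.sum_le_sum (fun c hc => hs c (Finset.mem_sdiff.1 hc).1 :
              ∀ c ∈ C \ A, n c ≤ s)
            rwa [Finset.sum_const, smul_eq_mul] at this
          have h6 : q * s ≤ (C \ A).card * s := by omega
          exact Nat.le_of_mul_le_mul_right h6 (by omega)
        obtain ⟨f', X, hnear, hlt⟩ := case_two G U C n f a b T q hprop haC (hA ▸ hTA) (hA ▸ hbA)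
          haT hcard (hA ▸ hterm) (hA ▸ IH') (hA ▸ hdq) (hA ▸ hCq) y1 y2 z (hA ▸ h1) (hA ▸ h2) h3 h4
          (hA ▸ hsolo y1 z h1)
        rw [← hA] at hlt
        exact ihk _ (by omega) f' a X hnear rfl
      · exfalso
        refine counting G U f A T u r s q hq hdeg hTA hTne huA huT hBA hBcard ?_ ?_ hsolo ?_
        · intro c hc
          exact (hcls c (hTA hc)).trans (hs c (hAC (hTA hc)))
        · intro x hx hxT c hc hcT hcu
          by_contra hcon
          rw [not_dg] at hcon
          exact hno (f x) hxT c hc hcT hcu ⟨x, hx, rfl, hcon⟩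
        · intro y1 y2 z h1 h2 h3
          by_contra hcon
          exact hc2 ⟨y1, y2, z, h1, h2, h3, hcon⟩

/-- Any class sizes can be realised when there are no edges. -/
theorem exists_sizes [hι : Nonempty ι] : ∀ (C : Finset ι) (U : Finset V) (n : ι → ℕ), ∑ c ∈ C, n c = U.card →
    ∃ f : V → ι, (∀ u ∈ U, f u ∈ C) ∧ ∀ c ∈ C, (cl U f c).card = n c := by
  classical
  intro C
  induction C using Finset.induction_on with
  | empty =>
    intro U n h
    rw [Finset.sum_empty] at h
    have hU : U = ∅ := Finset.card_eq_zero.1 h.symm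
    subst hU
    obtain ⟨i⟩ := hι
    exact ⟨fun _ => i, by simp, by simp⟩
  | @insert a C ha ih =>
    intro U n h
    rw [Finset.sum_insert ha] at h
    obtain ⟨U1, hU1, hU1c⟩ := Finset.exists_subset_card_eq (show n a ≤ U.card by omega)
    obtain ⟨f, hf1, hf2⟩ := ih (U \ U1) n (by
      rw [Finset.card_sdiff_of_subset hU1]; omega)
    refine ⟨fun v => if v ∈ U1 then a else f v, ?_, ?_⟩
    · intro u hu
      by_cases h : u ∈ U1
      · simp [h]
      · simp only [h, if_false]
        exact Finset.mem_insert_of_mem (hf1 u (Finset.mem_sdiff.2 ⟨hu, h⟩))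
    · intro c hc
      rw [Finset.mem_insert] at hc
      rcases hc with rfl | hc
      · rw [← hU1c]
        congr 1
        ext v
        rw [mem_cl]
        constructor
        · rintro ⟨hv, h2⟩
          by_contra h
          simp only [h, if_false] at h2
          exact ha (h2 ▸ hf1 v (Finset.mem_sdiff.2 ⟨hv, h⟩))
        · intro hv
          exact ⟨hU1 hv, by simp [hv]⟩
      · rw [← hf2 c hc]
        congr 1
        ext v
        rw [mem_cl, mem_cl, Finset.mem_sdiff]
        have hca : a ≠ c := by rintro rfl; exact ha hc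
        constructor
        · rintro ⟨hv, h2⟩
          by_cases h : v ∈ U1
          · simp only [h, if_true] at h2
            exact absurd h2 hca
          · simp only [h, if_false] at h2
            exact ⟨⟨hv, h⟩, h2⟩
        · rintro ⟨⟨hv, h⟩, h2⟩
          exact ⟨hv, by simp only [h, if_false]; exact h2⟩

theorem dg_graph_mono {G' G : SimpleGraph V} (hle : G' ≤ G) (X : Finset V) (v : V) :
    dg G' X v ≤ dg G X v := by
  classical
  unfold dg
  apply Finset.card_le_card
  intro w hw
  rw [Finset.mem_filter] at hw ⊢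
  exact ⟨hw.1, hle hw.2⟩

theorem dg_graph_lt {G' G : SimpleGraph V} (hle : G' ≤ G) (X : Finset V) (x y : V) (hy : y ∈ X)
    (hxy : G.Adj x y) (hxy' : ¬ G'.Adj x y) : dg G' X x < dg G X x := by
  classical
  unfold dg
  apply Finset.card_lt_card
  rw [Finset.ssubset_iff_of_subset]
  · refine ⟨y, Finset.mem_filter.2 ⟨hy, hxy⟩, ?_⟩
    rw [Finset.mem_filter]
    exact fun h => hxy' h.2
  · intro w hw
    rw [Finset.mem_filter] at hw ⊢
    exact ⟨hw.1, hle hw.2⟩

theorem exact_colouring [Nonempty ι] : ∀ (m : ℕ) (G : SimpleGraph V) (U : Finset V) (C : Finset ι)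
    (n : ι → ℕ) (r s : ℕ), U.card + ∑ v ∈ U, dg G U v = m → (∀ v ∈ U, dg G U v ≤ r) →
    (∀ c ∈ C, n c ≤ s) → (r + 1) * s ≤ U.card → ∑ c ∈ C, n c = U.card →
    ∃ g, Exact G U C n g := by
  classical
  intro m
  induction m using Nat.strong_induction_on with
  | _ m ihm =>
  intro G U C n r s hm hdeg hs hU hsum
  by_cases hedge : ∃ x ∈ U, ∃ y ∈ U, G.Adj x y
  · obtain ⟨x, hx, y, hy, hxy⟩ := hedge
    set G' := G.deleteEdges {s(x, y)} with hG'
    have hle : G' ≤ G := G.deleteEdges_le _
    have hdg : ∀ (X : Finset V) (v : V), dg G' X v ≤ dg G X v := dg_graph_mono hle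
    have hdgx : dg G' U x < dg G U x :=
      dg_graph_lt hle U x y hy hxy (by rw [hG', SimpleGraph.deleteEdges_adj]; simp)
    have hlt : ∑ v ∈ U, dg G' U v < ∑ v ∈ U, dg G U v :=
      Finset.sum_lt_sum (fun v _ => hdg U v) ⟨x, hx, hdgx⟩
    obtain ⟨f, hf, hfc⟩ := ihm _ (by omega) G' U C n r s rfl
      (fun v hv => (hdg U v).trans (hdeg v hv)) hs hU hsum
    by_cases hfxy : f x = f y
    · -- move `x`
      have hs1 : 1 ≤ s := by
        have h1 : 0 < (cl U f (f x)).card := Finset.card_pos.2 ⟨x, mem_cl.2 ⟨hx, rfl⟩⟩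
        have h2 := hfc (f x) (hf.1 x hx)
        have h3 := hs (f x) (hf.1 x hx)
        omega
      have hCr : r + 1 ≤ C.card := by
        have h5 : ∑ c ∈ C, n c ≤ C.card * s := by
          have := Finset.sum_le_sum hs
          rwa [Finset.sum_const, smul_eq_mul] at this
        have h6 : (r + 1) * s ≤ C.card * s := by omega
        exact Nat.le_of_mul_le_mul_right h6 (by omega)
      obtain ⟨d, hdC, hdx, hmv⟩ : ∃ d ∈ C, d ≠ f x ∧ Mv G U f x d := by
        by_contra hcon
        push Not at hcon
        have h1 := dg_split G U f C x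
        have h2 := hdeg x hx
        have h3 : ∀ c ∈ C, 1 ≤ dg G (cl U f c) x := by
          intro c hc
          by_cases hcx : c = f x
          · subst hcx
            unfold dg
            exact Finset.card_pos.2 ⟨y, Finset.mem_filter.2 ⟨mem_cl.2 ⟨hy, hfxy.symm⟩, hxy⟩⟩
          · by_contra h
            exact hcon c hc hcx (not_dg.1 h)
        have h4 : C.card ≤ ∑ c ∈ C, dg G (cl U f c) x := by
          rw [Finset.card_eq_sum_ones]
          exact Finset.sum_le_sum h3
        omega
      set f1 := Function.update f x d with hf1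
      have hnear : Near G U C n f1 (f x) d := by
        refine ⟨⟨?_, ?_⟩, hf.1 x hx, hdC, ?_⟩
        · intro v hv
          by_cases h : v = x
          · subst h; rw [hf1, Function.update_self]; exact hdC
          · rw [hf1, Function.update_of_ne h]; exact hf.1 v hv
        · intro v hv w hw hadj
          by_cases h : v = x
          · subst h
            have hne : w ≠ v := fun h => by subst h; exact (G.loopless.irrefl _ hadj)
            rw [hf1, Function.update_self, Function.update_of_ne hne]
            intro h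
            exact hmv w hw h.symm hadj
          · by_cases h' : w = x
            · subst h'
              rw [hf1, Function.update_self, Function.update_of_ne h]
              intro h2
              exact hmv v hv h2 hadj.symm
            · rw [hf1, Function.update_of_ne h, Function.update_of_ne h']
              refine hf.2 v hv w hw ?_
              rw [hG', SimpleGraph.deleteEdges_adj]
              refine ⟨hadj, ?_⟩
              rw [Set.mem_singleton_iff, Sym2.eq_iff]
              rintro (⟨h1, _⟩ | ⟨_, h1⟩)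
              · exact h h1
              · exact h' h1
        · intro c hc
          have h1 := card_cl_update (f := f) (d := d) hx c
          rw [← hf1, hfc c hc] at h1
          exact h1
      refine near_exact G U C n r s hdeg hs hU hsum ?_ _ f1 (f x) d hnear rfl
      intro U' hU' C' hC' r' hdeg' hUr' hsum'
      have h1 : U'.card < U.card := Finset.card_lt_card hU'
      have h2 : ∑ v ∈ U', dg G U' v ≤ ∑ v ∈ U, dg G U v :=
        (Finset.sum_le_sum fun v _ => dg_mono G hU'.subset v).trans
          (Finset.sum_le_sum_of_subset hU'.subset)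
      exact ihm _ (by omega) G U' C' n r' s rfl hdeg' (fun c hc => hs c (hC' hc)) hUr' hsum'
    · refine ⟨f, ⟨hf.1, ?_⟩, hfc⟩
      intro v hv w hw hadj
      by_cases h : s(v, w) = s(x, y)
      · rw [Sym2.eq_iff] at h
        rcases h with ⟨rfl, rfl⟩ | ⟨rfl, rfl⟩
        · exact hfxy
        · exact fun h => hfxy h.symm
      · refine hf.2 v hv w hw ?_
        rw [hG', SimpleGraph.deleteEdges_adj]
        exact ⟨hadj, by rwa [Set.mem_singleton_iff]⟩
  · push Not at hedge
    obtain ⟨f, hf1, hf2⟩ := exists_sizes C U n hsum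
    exact ⟨f, ⟨hf1, fun v hv w hw h => absurd h (hedge v hv w hw)⟩, hf2⟩

end Q127.HS
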