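import Pool.Agent.Q127.HS.Digraph

/-!
Counting arguments: there is a solo vertex which can be moved, or which has two nonadjacent
special neighbours.
-/

set_option autoImplicit false
set_option linter.unusedSectionVars false

namespace Q127.HS

variable {V ι : Type*} [DecidableEq V] [DecidableEq ι]

/-- The number of neighbours of `x` in the set `X`. -/
noncomputable def dg (G : SimpleGraph V) (X : Finset V) (x : V) : ℕ := by
  classical
  exact (X.filter (fun w => G.Adj x w)).card

theorem dg_mono (G : SimpleGraph V) {X Y : Finset V} (h : X ⊆ Y) (x : V) : dg G X x ≤ dg G Y x := by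
  classical
  unfold dg
  exact Finset.card_le_card (Finset.filter_subset_filter _ h)

theorem sum_dg_comm (G : SimpleGraph V) (X Y : Finset V) :
    ∑ x ∈ X, dg G Y x = ∑ y ∈ Y, dg G X y := by
  classical
  unfold dg
  have h := Finset.sum_card_bipartiteAbove_eq_sum_card_bipartiteBelow (s := X) (t := Y)
    (fun x y => G.Adj x y)
  simp only [Finset.bipartiteAbove, Finset.bipartiteBelow] at h
  rw [h]
  refine Finset.sum_congr rfl fun y _ => ?_
  congr 1
  ext x
  simp [G.adj_comm]

/-- The vertices of `U` with a colour outside `A`. -/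
def Bs (U : Finset V) (f : V → ι) (A : Finset ι) : Finset V := U.filter (fun u => f u ∉ A)

theorem dg_split (G : SimpleGraph V) (U : Finset V) (f : V → ι) (A : Finset ι) (x : V) :
    dg G (Bs U f A) x + ∑ c ∈ A, dg G (cl U f c) x = dg G U x := by
  classical
  unfold dg Bs cl
  have h1 : (U.filter (fun w => G.Adj x w)).card =
      ((U.filter (fun w => G.Adj x w)).filter (fun w => f w ∉ A)).card +
      ((U.filter (fun w => G.Adj x w)).filter (fun w => ¬ f w ∉ A)).card :=
    (Finset.card_filter_add_card_filter_not _).symm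
  have h2 : ((U.filter (fun w => G.Adj x w)).filter (fun w => ¬ f w ∉ A)).card =
      ∑ c ∈ A, (((U.filter (fun w => G.Adj x w)).filter (fun w => ¬ f w ∉ A)).filter
        (fun w => f w = c)).card := by
    apply Finset.card_eq_sum_card_fiberwise
    intro w hw
    simpa using (Finset.mem_filter.1 hw).2
  rw [h1, h2]
  congr 1
  · congr 1
    ext w
    simp only [Finset.mem_filter]
    tauto
  · refine Finset.sum_congr rfl fun c hc => ?_
    congr 1
    ext w
    simp only [Finset.mem_filter, not_not]
    constructor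
    · rintro ⟨⟨h1, h2⟩, h3⟩
      exact ⟨⟨⟨h1, h3⟩, h2 ▸ hc⟩, h2⟩
    · rintro ⟨⟨⟨h1, h3⟩, _⟩, h2⟩
      exact ⟨⟨h1, h2⟩, h3⟩

theorem card_split (U : Finset V) (f : V → ι) (A : Finset ι) :
    (Bs U f A).card + ∑ c ∈ A, (cl U f c).card = U.card := by
  classical
  unfold Bs cl
  have h1 : U.card = (U.filter (fun w => f w ∉ A)).card + (U.filter (fun w => ¬ f w ∉ A)).card :=
    (Finset.card_filter_add_card_filter_not _).symm
  have h2 : (U.filter (fun w => ¬ f w ∉ A)).card =
      ∑ c ∈ A, ((U.filter (fun w => ¬ f w ∉ A)).filter (fun w => f w = c)).card := by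
    apply Finset.card_eq_sum_card_fiberwise
    intro w hw
    simpa using (Finset.mem_filter.1 hw).2
  rw [h1, h2]
  congr 1
  refine Finset.sum_congr rfl fun c hc => ?_
  congr 1
  ext w
  simp only [Finset.mem_filter, not_not]
  constructor
  · rintro ⟨h1, h2⟩
    exact ⟨⟨h1, h2 ▸ hc⟩, h2⟩
  · rintro ⟨⟨h1, _⟩, h2⟩
    exact ⟨h1, h2⟩

/-- `z` is a solo vertex with special neighbour `y`. -/
def Solo (G : SimpleGraph V) (U : Finset V) (f : V → ι) (A T : Finset ι) (y z : V) : Prop :=
  y ∈ Bs U f A ∧ z ∈ U ∧ f z ∈ T ∧ G.Adj y z ∧ dg G (cl U f (f z)) y = 1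

theorem Solo.unique {G : SimpleGraph V} {U : Finset V} {f : V → ι} {A T : Finset ι} {y z : V}
    (h : Solo G U f A T y z) : ∀ w ∈ U, f w = f z → G.Adj y w → w = z := by
  classical
  intro w hw hfw hadj
  obtain ⟨_, hz, _, hyz, h1⟩ := h
  unfold dg at h1
  rw [Finset.card_eq_one] at h1
  obtain ⟨a, ha⟩ := h1
  have h2 : w ∈ (cl U f (f z)).filter (fun w => G.Adj y w) := by
    simp [mem_cl, hw, hfw, hadj]
  have h3 : z ∈ (cl U f (f z)).filter (fun w => G.Adj y w) := by
    simp [mem_cl, hz, hyz]
  rw [ha, Finset.mem_singleton] at h2 h3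
  rw [h2, h3]

/-- The counting argument. -/
theorem counting (G : SimpleGraph V) (U : Finset V) (f : V → ι) (A T : Finset ι) (u : ι)
    (r s q : ℕ) (hq : q + A.card = r + 1)
    (hdeg : ∀ v ∈ U, dg G U v ≤ r)
    (hTA : T ⊆ A) (hT : T.Nonempty) (huA : u ∈ A) (huT : u ∉ T)
    (hBA : ∀ y ∈ Bs U f A, ∀ c ∈ A, 1 ≤ dg G (cl U f c) y)
    (hB : q * s + 1 ≤ (Bs U f A).card)
    (hcl : ∀ c ∈ T, (cl U f c).card ≤ s)
    (hTx : ∀ x ∈ U, f x ∈ T → ∀ c ∈ A, c ∉ T → c ≠ u → 1 ≤ dg G (cl U f c) x)
    (hsolo : ∀ y z, Solo G U f A T y z → ∀ c ∈ A, c ≠ f z → 1 ≤ dg G (cl U f c) z)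
    (hclique : ∀ y1 y2 z, Solo G U f A T y1 z → Solo G U f A T y2 z → y1 ≠ y2 → G.Adj y1 y2) :
    False := by
  classical
  set B := Bs U f A with hBdef
  have hBU : B ⊆ U := Finset.filter_subset _ _
  have hTcard : T.card + 1 ≤ A.card := by
    have : insert u T ⊆ A := by
      intro x hx
      rw [Finset.mem_insert] at hx
      rcases hx with rfl | hx
      · exact huA
      · exact hTA hx
    have := Finset.card_le_card this
    rwa [Finset.card_insert_of_notMem huT] at this
  -- degree facts
  have hdB : ∀ y ∈ B, dg G B y + A.card ≤ r := by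
    intro y hy
    have h1 := dg_split G U f A y
    have h2 := hdeg y (hBU hy)
    have h3 : A.card ≤ ∑ c ∈ A, dg G (cl U f c) y := by
      rw [Finset.card_eq_sum_ones]
      exact Finset.sum_le_sum fun c hc => hBA y hy c hc
    rw [← hBdef] at h1
    omega
  -- Lemma 2.2
  have htq : q + 1 ≤ T.card := by
    obtain ⟨W, hW⟩ := hT
    set S := (cl U f W).filter (fun z => ∃ y, Solo G U f A T y z) with hS
    set D := (cl U f W).filter (fun z => ¬ ∃ y, Solo G U f A T y z) with hD
    have hSD : S.card + D.card ≤ s := by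
      rw [hS, hD, Finset.card_filter_add_card_filter_not]
      exact hcl W hW
    have hdS : ∀ z ∈ S, dg G B z ≤ q := by
      intro z hz
      rw [hS, Finset.mem_filter, mem_cl] at hz
      obtain ⟨⟨hzU, hzW⟩, y, hyz⟩ := hz
      have h1 := dg_split G U f A z
      have h2 := hdeg z hzU
      have h3 : (A.erase W).card ≤ ∑ c ∈ A, dg G (cl U f c) z := by
        rw [Finset.card_eq_sum_ones]
        calc ∑ c ∈ A.erase W, 1 ≤ ∑ c ∈ A.erase W, dg G (cl U f c) z := by
              refine Finset.sum_le_sum fun c hc => ?_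
              exact hsolo y z hyz c (Finset.mem_of_mem_erase hc)
                (by rw [hzW]; exact Finset.ne_of_mem_erase hc)
          _ ≤ ∑ c ∈ A, dg G (cl U f c) z :=
              Finset.sum_le_sum_of_subset (Finset.erase_subset _ _)
      rw [Finset.card_erase_of_mem (hTA hW)] at h3
      rw [← hBdef] at h1
      omega
    have hdD : ∀ z ∈ D, dg G B z ≤ q + T.card := by
      intro z hz
      rw [hD, Finset.mem_filter, mem_cl] at hz
      obtain ⟨⟨hzU, hzW⟩, _⟩ := hz
      have h1 := dg_split G U f A z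
      have h2 := hdeg z hzU
      have h3 : ((A \ T).erase u).card ≤ ∑ c ∈ A, dg G (cl U f c) z := by
        rw [Finset.card_eq_sum_ones]
        calc ∑ c ∈ (A \ T).erase u, 1 ≤ ∑ c ∈ (A \ T).erase u, dg G (cl U f c) z := by
              refine Finset.sum_le_sum fun c hc => ?_
              have hc1 := Finset.mem_of_mem_erase hc
              rw [Finset.mem_sdiff] at hc1
              exact hTx z hzU (by rw [hzW]; exact hW) c hc1.1 hc1.2 (Finset.ne_of_mem_erase hc)
          _ ≤ ∑ c ∈ A, dg G (cl U f c) z :=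
              Finset.sum_le_sum_of_subset ((Finset.erase_subset _ _).trans Finset.sdiff_subset)
      rw [Finset.card_erase_of_mem (Finset.mem_sdiff.2 ⟨huA, huT⟩),
        Finset.card_sdiff_of_subset hTA] at h3
      rw [← hBdef] at h1
      omega
    -- vertices of `B` with exactly one neighbour in `W`
    set B1 := B.filter (fun y => dg G (cl U f W) y = 1) with hB1
    have hB1card : B1.card ≤ q * S.card := by
      have h1 : B1.card ≤ ∑ z ∈ S, dg G B z := by
        have hsub : B1 ⊆ S.biUnion (fun z => B.filter (fun y => G.Adj z y)) := by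
          intro y hy
          rw [hB1, Finset.mem_filter] at hy
          have h2 := hy.2
          unfold dg at h2
          rw [Finset.card_eq_one] at h2
          obtain ⟨z, hz⟩ := h2
          have hz' : z ∈ (cl U f W).filter (fun w => G.Adj y w) := by rw [hz]; simp
          rw [Finset.mem_filter] at hz'
          have hz2 := mem_cl.1 hz'.1
          rw [Finset.mem_biUnion]
          refine ⟨z, ?_, ?_⟩
          · rw [hS, Finset.mem_filter]
            exact ⟨hz'.1, y, hy.1, hz2.1, by rw [hz2.2]; exact hW, hz'.2, by rw [hz2.2]; exact hy.2⟩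
          · rw [Finset.mem_filter]
            exact ⟨hy.1, hz'.2.symm⟩
        exact (Finset.card_le_card hsub).trans Finset.card_biUnion_le
      have h2 : ∑ z ∈ S, dg G B z ≤ ∑ z ∈ S, q := Finset.sum_le_sum hdS
      rw [Finset.sum_const, smul_eq_mul, mul_comm] at h2
      omega
    have hlow : 2 * B.card ≤ B1.card + ∑ y ∈ B, dg G (cl U f W) y := by
      have h1 : ∀ y ∈ B, 2 ≤ (if dg G (cl U f W) y = 1 then 1 else 0) + dg G (cl U f W) y := by
        intro y hy
        have := hBA y hy W (hTA hW)
        split_ifs with h <;> omega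
      have h2 := Finset.sum_le_sum h1
      rw [Finset.sum_const, smul_eq_mul, Finset.sum_add_distrib] at h2
      have h3 : ∑ y ∈ B, (if dg G (cl U f W) y = 1 then 1 else 0) = B1.card := by
        rw [hB1, Finset.card_filter]
      rw [h3] at h2
      omega
    have hup : ∑ y ∈ B, dg G (cl U f W) y ≤ q * S.card + (q + T.card) * D.card := by
      rw [sum_dg_comm]
      have h1 : ∑ y ∈ cl U f W, dg G B y = ∑ y ∈ S, dg G B y + ∑ y ∈ D, dg G B y := by
        rw [hS, hD]
        exact (Finset.sum_filter_add_sum_filter_not _ _ _).symm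
      have h2 : ∑ z ∈ S, dg G B z ≤ ∑ z ∈ S, q := Finset.sum_le_sum hdS
      have h3 : ∑ z ∈ D, dg G B z ≤ ∑ z ∈ D, (q + T.card) := Finset.sum_le_sum hdD
      rw [Finset.sum_const, smul_eq_mul, mul_comm] at h2 h3
      omega
    by_contra hcon
    have hle : T.card ≤ q := by omega
    have h1 : q * (S.card + D.card) ≤ q * s := Nat.mul_le_mul_left _ hSD
    have h2 : T.card * D.card ≤ q * D.card := Nat.mul_le_mul_right _ hle
    nlinarith
  -- the weight argument
  set A' := U.filter (fun z => f z ∈ T) with hA'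
  have hA'card : A'.card ≤ T.card * s := by
    have h1 : A'.card = ∑ c ∈ T, (A'.filter (fun w => f w = c)).card := by
      apply Finset.card_eq_sum_card_fiberwise
      intro w hw
      exact (Finset.mem_filter.1 hw).2
    have h2 : ∀ c ∈ T, (A'.filter (fun w => f w = c)).card ≤ s := by
      intro c hc
      refine (Finset.card_le_card ?_).trans (hcl c hc)
      intro w hw
      rw [Finset.mem_filter, hA', Finset.mem_filter] at hw
      exact mem_cl.2 ⟨hw.1.1, hw.2⟩
    rw [h1]
    have h3 := Finset.sum_le_sum h2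
    rwa [Finset.sum_const, smul_eq_mul] at h3
  set Sz : V → Finset V := fun z => B.filter (fun y => Solo G U f A T y z) with hSz
  set Sy : V → Finset V := fun y => A'.filter (fun z => Solo G U f A T y z) with hSy
  have hSycard : ∀ y ∈ B, T.card + dg G B y + 1 ≤ (Sy y).card + q := by
    intro y hy
    have h1 := dg_split G U f A y
    have h2 := hdeg y (hBU hy)
    -- classes of `T` with exactly one neighbour
    set T1 := T.filter (fun c => dg G (cl U f c) y = 1) with hT1
    have h3 : A.card + T.card ≤ T1.card + ∑ c ∈ A, dg G (cl U f c) y := by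
      have h4 : ∀ c ∈ A, 1 + (if c ∈ T then 1 else 0) ≤
          (if c ∈ T ∧ dg G (cl U f c) y = 1 then 1 else 0) + dg G (cl U f c) y := by
        intro c hc
        have := hBA y hy c hc
        by_cases hcT : c ∈ T
        · by_cases h5 : dg G (cl U f c) y = 1
          · simp [hcT, h5]
          · simp only [hcT, h5, and_false, if_true, if_false]
            omega
        · simp only [hcT, false_and, if_false]
          omega
      have h6 := Finset.sum_le_sum h4
      rw [Finset.sum_add_distrib, Finset.sum_add_distrib] at h6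
      have h7 : ∑ c ∈ A, (if c ∈ T then 1 else 0) = T.card := by
        rw [← Finset.card_filter]
        congr 1
        ext c
        simp only [Finset.mem_filter]
        exact ⟨fun h => h.2, fun h => ⟨hTA h, h⟩⟩
      have h8 : ∑ c ∈ A, (if c ∈ T ∧ dg G (cl U f c) y = 1 then 1 else 0) = T1.card := by
        rw [← Finset.card_filter, hT1]
        congr 1
        ext c
        simp only [Finset.mem_filter]
        exact ⟨fun h => h.2, fun h => ⟨hTA h.1, h⟩⟩
      rw [h7, h8, ← Finset.card_eq_sum_ones] at h6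
      exact h6
    have h9 : T1.card ≤ (Sy y).card := by
      have hsub : T1 ⊆ (Sy y).image f := by
        intro c hc
        rw [hT1, Finset.mem_filter] at hc
        have h10 := hc.2
        unfold dg at h10
        rw [Finset.card_eq_one] at h10
        obtain ⟨z, hz⟩ := h10
        have hz' : z ∈ (cl U f c).filter (fun w => G.Adj y w) := by rw [hz]; simp
        rw [Finset.mem_filter] at hz'
        have hz2 := mem_cl.1 hz'.1
        rw [Finset.mem_image]
        refine ⟨z, ?_, hz2.2⟩
        rw [hSy, Finset.mem_filter, hA', Finset.mem_filter]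
        exact ⟨⟨hz2.1, by rw [hz2.2]; exact hc.1⟩, hy, hz2.1, by rw [hz2.2]; exact hc.1, hz'.2,
          by rw [hz2.2]; exact hc.2⟩
      exact (Finset.card_le_card hsub).trans Finset.card_image_le
    rw [← hBdef] at h1
    omega
  have hSzcard : ∀ y z, Solo G U f A T y z → (Sz z).card ≤ dg G B y + 1 := by
    intro y z hyz
    have hsub : (Sz z).erase y ⊆ B.filter (fun w => G.Adj y w) := by
      intro w hw
      rw [Finset.mem_erase, hSz, Finset.mem_filter] at hw
      rw [Finset.mem_filter]
      exact ⟨hw.2.1, hclique y w z hyz hw.2.2 (Ne.symm hw.1)⟩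
    have h1 := Finset.card_le_card hsub
    have h2 : y ∈ Sz z := by
      rw [hSz, Finset.mem_filter]
      exact ⟨hyz.1, hyz⟩
    rw [Finset.card_erase_of_mem h2] at h1
    unfold dg
    omega
  -- double counting with weights `q / |Sz z|`
  have hsum1 : ∑ y ∈ B, ∑ z ∈ Sy y, (q : ℚ) / (Sz z).card ≤ q * (T.card * s) := by
    have h1 : ∑ y ∈ B, ∑ z ∈ Sy y, (q : ℚ) / (Sz z).card =
        ∑ z ∈ A', ∑ y ∈ Sz z, (q : ℚ) / (Sz z).card := by
      apply Finset.sum_comm'
      intro y z
      simp only [hSy, hSz, Finset.mem_filter]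
      tauto
    rw [h1]
    have h2 : ∀ z ∈ A', ∑ y ∈ Sz z, (q : ℚ) / (Sz z).card ≤ q := by
      intro z _
      rw [Finset.sum_const, nsmul_eq_mul]
      by_cases h : (Sz z).card = 0
      · rw [h]; simp
      · have h' : ((Sz z).card : ℚ) ≠ 0 := by exact_mod_cast h
        rw [mul_div_cancel₀ _ h']
    have h3 := Finset.sum_le_sum h2
    rw [Finset.sum_const, nsmul_eq_mul] at h3
    refine h3.trans ?_
    rw [mul_comm]
    have h4 : ((A'.card : ℕ) : ℚ) ≤ ((T.card * s : ℕ) : ℚ) := by exact_mod_cast hA'card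
    push_cast at h4
    exact mul_le_mul_of_nonneg_left h4 (by positivity)
  have hsum2 : ∀ y ∈ B, (T.card : ℚ) ≤ ∑ z ∈ Sy y, (q : ℚ) / (Sz z).card := by
    intro y hy
    have hδ : dg G B y + 1 ≤ q := by
      have := hdB y hy
      omega
    have h1 : ∀ z ∈ Sy y, (q : ℚ) / (dg G B y + 1 : ℕ) ≤ (q : ℚ) / (Sz z).card := by
      intro z hz
      rw [hSy, Finset.mem_filter] at hz
      have h2 := hSzcard y z hz.2
      have h3 : 0 < (Sz z).card := by
        apply Finset.card_pos.2
        exact ⟨y, by rw [hSz, Finset.mem_filter]; exact ⟨hy, hz.2⟩⟩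
      apply div_le_div_of_nonneg_left (by positivity) (by exact_mod_cast h3)
      exact_mod_cast h2
    have h4 := Finset.sum_le_sum h1
    rw [Finset.sum_const, nsmul_eq_mul] at h4
    refine le_trans ?_ h4
    have h5 := hSycard y hy
    have h6 : (0 : ℚ) < (dg G B y + 1 : ℕ) := by positivity
    rw [← mul_div_assoc, le_div_iff₀ h6]
    have h7 : ((T.card : ℕ) : ℚ) + dg G B y + 1 ≤ (Sy y).card + q := by exact_mod_cast h5
    have h8 : ((dg G B y : ℕ) : ℚ) + 1 ≤ q := by exact_mod_cast hδ
    have h9 : (q : ℚ) + 1 ≤ T.card := by exact_mod_cast htq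
    push_cast
    have h10 : (0 : ℚ) ≤ dg G B y := by positivity
    nlinarith
  have hsum3 := Finset.sum_le_sum hsum2
  rw [Finset.sum_const, nsmul_eq_mul] at hsum3
  have h1 := hsum3.trans hsum1
  have h2 : B.card * T.card ≤ q * (T.card * s) := by exact_mod_cast h1
  have h3 : (q * s + 1) * T.card ≤ B.card * T.card := Nat.mul_le_mul_right _ hB
  have h4 : 0 < T.card := Finset.card_pos.2 hT
  nlinarith

end Q127.HS
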