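import Pool.Agent.Q127.HS.Path

/-!
Terminal classes in the digraph of accessible classes.
-/

set_option autoImplicit false
set_option linter.unusedSectionVars false

namespace Q127.HS

variable {ι : Type*} [DecidableEq ι]

/-- The relation `R` inside `A` without the point `w`. -/
def Rw (R : ι → ι → Prop) (A : Finset ι) (w : ι) (x y : ι) : Prop :=
  x ∈ A ∧ y ∈ A ∧ x ≠ w ∧ y ≠ w ∧ R x y

theorem exists_terminal (R : ι → ι → Prop) (A : Finset ι) (a : ι) (ha : a ∈ A)
    (hreach : ∀ c ∈ A, Relation.ReflTransGen (fun x y => x ∈ A ∧ y ∈ A ∧ R x y) c a)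
    (hA : A ≠ {a}) :
    ∃ u ∈ A, ∃ T : Finset ι, T ⊆ A ∧ T.Nonempty ∧ u ∉ T ∧ a ∉ T ∧
      (∀ w ∈ T, ∀ c ∈ A, c ≠ w → Relation.ReflTransGen (Rw R A w) c a) ∧
      ∀ w ∈ T, ∀ x ∈ A, x ∉ T → x ≠ u → ¬ R w x := by
  classical
  let T : ι → Finset ι := fun w => A.filter (fun c => c ≠ w ∧ ¬ Relation.ReflTransGen (Rw R A w) c a)
  have hT : ∀ w c, c ∈ T w ↔ c ∈ A ∧ c ≠ w ∧ ¬ Relation.ReflTransGen (Rw R A w) c a := by
    intro w c
    simp [T]
  have hane : ∃ c ∈ A, c ≠ a := by
    by_contra h
    push Not at h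
    exact hA (Finset.eq_singleton_iff_unique_mem.2 ⟨ha, h⟩)
  have hTa : (T a).Nonempty := by
    obtain ⟨c, hc, hca⟩ := hane
    refine ⟨c, (hT a c).2 ⟨hc, hca, ?_⟩⟩
    intro h
    rcases Relation.ReflTransGen.cases_tail h with h | ⟨d, _, h⟩
    · exact hca h.symm
    · exact h.2.2.2.1 rfl
  obtain ⟨u, hu, hmin⟩ := Finset.exists_min_image (A.filter (fun w => (T w).Nonempty))
    (fun w => (T w).card) ⟨a, by simp [ha, hTa]⟩
  rw [Finset.mem_filter] at hu
  -- reaching while avoiding `u` implies reaching while avoiding any `w ∈ T u`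
  have havoid : ∀ w ∈ T u, ∀ c, Relation.ReflTransGen (Rw R A u) c a → c ≠ u → c ∈ A →
      Relation.ReflTransGen (Rw R A w) c a := by
    intro w hw c h
    induction h using Relation.ReflTransGen.head_induction_on with
    | refl => intro _ _; exact Relation.ReflTransGen.refl
    | @head c d hcd hda ih =>
      intro hcu hcA
      have hcw : c ≠ w := by
        rintro rfl
        exact ((hT u c).1 hw).2.2 (Relation.ReflTransGen.head hcd hda)
      have hdw : d ≠ w := by
        rintro rfl
        exact ((hT u d).1 hw).2.2 hda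
      exact Relation.ReflTransGen.head ⟨hcd.1, hcd.2.1, hcw, hdw, hcd.2.2.2.2⟩
        (ih hcd.2.2.2.1 hcd.2.1)
  refine ⟨u, hu.1, T u, fun c hc => ((hT u c).1 hc).1, hu.2, fun h => ((hT u u).1 h).2.1 rfl, ?_, ?_, ?_⟩
  · intro h
    exact ((hT u a).1 h).2.2 Relation.ReflTransGen.refl
  · intro w hw c hc hcw
    by_contra hcon
    have hwA := ((hT u w).1 hw).1
    have hwu := ((hT u w).1 hw).2.1
    have hTw : (T w).Nonempty := ⟨c, (hT w c).2 ⟨hc, hcw, hcon⟩⟩
    have hsub : T w ⊆ (T u).erase w := by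
      intro d hd
      obtain ⟨hdA, hdw, hd2⟩ := (hT w d).1 hd
      rw [Finset.mem_erase]
      refine ⟨hdw, ?_⟩
      by_contra hdu
      have hdu' : d = u ∨ Relation.ReflTransGen (Rw R A u) d a := by
        by_contra h
        push Not at h
        exact hdu ((hT u d).2 ⟨hdA, h.1, h.2⟩)
      by_cases hd_u : d = u
      · subst hd_u
        obtain ⟨l, hl⟩ := exists_path (hreach d hdA)
        cases l with
        | nil =>
          have : d = a := hl
          subst this
          exact hd2 Relation.ReflTransGen.refl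
        | cons e l =>
          have he : Relation.ReflTransGen (Rw R A d) e a := by
            apply IsPath.refl_trans l e
            refine IsPath.mono l e hl.2.2 ?_
            intro x y hx hy _ hR
            refine ⟨hR.1, hR.2.1, ?_, ?_, hR.2.2⟩
            · rintro rfl; exact hl.2.1 hx
            · rintro rfl; exact hl.2.1 (List.mem_cons_of_mem _ hy)
          have hed : e ≠ d := by
            rintro rfl; exact hl.2.1 (by simp)
          have he2 := havoid w hw e he hed hl.1.2.1
          have hew : e ≠ w := by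
            rintro rfl
            exact ((hT d e).1 hw).2.2 he
          exact hd2 (Relation.ReflTransGen.head ⟨hdA, hl.1.2.1, hdw, hew, hl.1.2.2⟩ he2)
      · rcases hdu' with h | h
        · exact hd_u h
        · exact hd2 (havoid w hw d h hd_u hdA)
    have h1 := hmin w (Finset.mem_filter.2 ⟨hwA, hTw⟩)
    have h2 := Finset.card_le_card hsub
    rw [Finset.card_erase_of_mem hw] at h2
    have h3 : 0 < (T u).card := Finset.card_pos.2 ⟨w, hw⟩
    omega
  · intro w hw x hx hxT hxu hR
    have h1 : Relation.ReflTransGen (Rw R A u) x a := by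
      by_contra h
      exact hxT ((hT u x).2 ⟨hx, hxu, h⟩)
    obtain ⟨hwA, hwu, hw2⟩ := (hT u w).1 hw
    exact hw2 (Relation.ReflTransGen.head ⟨hwA, hx, hwu, hxu, hR⟩ h1)

end Q127.HS
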