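import Pool.Agent.Q127.HS.Count

/-!
From nearly exact to exact colourings.
-/

set_option autoImplicit false
set_option linter.unusedSectionVars false

namespace Q127.HS

variable {V ι : Type*} [DecidableEq V] [DecidableEq ι]

/-- A proper colouring of `G[U]` in which the colour `c ∈ C` occurs `n c` times. -/
def Exact (G : SimpleGraph V) (U : Finset V) (C : Finset ι) (n : ι → ℕ) (f : V → ι) : Prop :=
  Proper G U C f ∧ ∀ c ∈ C, (cl U f c).card = n c

/-- The same, with one vertex of colour `a` missing and one of colour `b` too many. -/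
def Near (G : SimpleGraph V) (U : Finset V) (C : Finset ι) (n : ι → ℕ) (f : V → ι) (a b : ι) :
    Prop :=
  Proper G U C f ∧ a ∈ C ∧ b ∈ C ∧ ∀ c ∈ C, (cl U f c).card + (if c = a then 1 else 0) =
    n c + (if c = b then 1 else 0)

theorem not_dg {G : SimpleGraph V} {U : Finset V} {f : V → ι} {x : V} {c : ι} :
    ¬ (1 ≤ dg G (cl U f c) x) ↔ Mv G U f x c := by
  classical
  unfold dg Mv
  rw [not_le, Nat.lt_one_iff, Finset.card_eq_zero, Finset.filter_eq_empty_iff]
  constructor
  · intro h w hw hwc
    exact h (mem_cl.2 ⟨hw, hwc⟩)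
  · intro h w hw
    exact h w (mem_cl.1 hw).1 (mem_cl.1 hw).2

theorem combine (G : SimpleGraph V) (U : Finset V) (A C : Finset ι) (n : ι → ℕ) (hAC : A ⊆ C)
    (f g : V → ι) (hf : Proper G U C f) (hg : Exact G (Bs U f A) (C \ A) n g)
    (hA : ∀ c ∈ A, (cl U f c).card = n c) : ∃ h, Exact G U C n h := by
  classical
  have hgC : ∀ v ∈ U, f v ∉ A → g v ∈ C ∧ g v ∉ A := by
    intro v hv hfv
    have := hg.1.1 v (by unfold Bs; rw [Finset.mem_filter]; exact ⟨hv, hfv⟩)
    rwa [Finset.mem_sdiff] at this
  refine ⟨fun v => if f v ∈ A then f v else g v, ⟨?_, ?_⟩, ?_⟩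
  · intro v hv
    by_cases h : f v ∈ A
    · simp only [h, if_true]; exact hAC h
    · simp only [h, if_false]; exact (hgC v hv h).1
  · intro v hv w hw hadj
    by_cases h : f v ∈ A
    · by_cases h' : f w ∈ A
      · simp only [h, h', if_true]; exact hf.2 v hv w hw hadj
      · simp only [h, h', if_true, if_false]
        intro h2
        exact (hgC w hw h').2 (h2 ▸ h)
    · by_cases h' : f w ∈ A
      · simp only [h, h', if_true, if_false]
        intro h2
        exact (hgC v hv h).2 (h2 ▸ h')
      · simp only [h, h', if_false]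
        exact hg.1.2 v (by unfold Bs; rw [Finset.mem_filter]; exact ⟨hv, h⟩) w
          (by unfold Bs; rw [Finset.mem_filter]; exact ⟨hw, h'⟩) hadj
  · intro c hc
    by_cases hcA : c ∈ A
    · rw [← hA c hcA]
      congr 1
      ext v
      rw [mem_cl, mem_cl]
      constructor
      · rintro ⟨hv, h⟩
        refine ⟨hv, ?_⟩
        by_cases h2 : f v ∈ A
        · simpa only [h2, if_true] using h
        · simp only [h2, if_false] at h
          exact absurd (h ▸ hcA) (hgC v hv h2).2
      · rintro ⟨hv, h⟩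
        refine ⟨hv, ?_⟩
        simp only [h, hcA, if_true]
    · rw [← hg.2 c (Finset.mem_sdiff.2 ⟨hc, hcA⟩)]
      congr 1
      ext v
      rw [mem_cl, mem_cl]
      unfold Bs
      rw [Finset.mem_filter]
      constructor
      · rintro ⟨hv, h⟩
        by_cases h2 : f v ∈ A
        · simp only [h2, if_true] at h
          exact absurd (h ▸ h2) hcA
        · simp only [h2, if_false] at h
          exact ⟨⟨hv, h2⟩, h⟩
      · rintro ⟨⟨hv, h2⟩, h⟩
        refine ⟨hv, ?_⟩
        simp only [h2, if_false]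
        exact h

/-- The colours from which `a` can be reached. -/
noncomputable def Acc (G : SimpleGraph V) (U : Finset V) (C : Finset ι) (f : V → ι) (a : ι) :
    Finset ι := by
  classical
  exact C.filter (fun c => Relation.ReflTransGen (fun x y => x ∈ C ∧ y ∈ C ∧ E G U f x y) c a)

theorem mem_Acc {G : SimpleGraph V} {U : Finset V} {C : Finset ι} {f : V → ι} {a c : ι} :
    c ∈ Acc G U C f a ↔ c ∈ C ∧
      Relation.ReflTransGen (fun x y => x ∈ C ∧ y ∈ C ∧ E G U f x y) c a := by
  classical
  unfold Acc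
  rw [Finset.mem_filter]

theorem Proper.insert {G : SimpleGraph V} {U : Finset V} {C : Finset ι} {f : V → ι} {y : V} {d : ι}
    (hf : Proper G (U.erase y) C f) (hd : d ∈ C)
    (hm : ∀ w ∈ U.erase y, f w = d → ¬ G.Adj y w) :
    Proper G U C (Function.update f y d) := by
  refine ⟨?_, ?_⟩
  · intro u hu
    by_cases h : u = y
    · subst h; simpa using hd
    · rw [Function.update_of_ne h]; exact hf.1 u (Finset.mem_erase.2 ⟨h, hu⟩)
  · intro u hu w hw hadj
    by_cases h : u = y
    · subst h
      have hne : w ≠ u := fun h => by subst h; exact (G.loopless.irrefl _ hadj)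
      rw [Function.update_self, Function.update_of_ne hne]
      intro h
      exact hm w (Finset.mem_erase.2 ⟨hne, hw⟩) h.symm hadj
    · by_cases h' : w = y
      · subst h'
        rw [Function.update_self, Function.update_of_ne h]
        intro h2
        exact hm u (Finset.mem_erase.2 ⟨h, hu⟩) h2 hadj.symm
      · rw [Function.update_of_ne h, Function.update_of_ne h']
        exact hf.2 u (Finset.mem_erase.2 ⟨h, hu⟩) w (Finset.mem_erase.2 ⟨h', hw⟩) hadj

/-- Case I: a solo vertex `z` can be moved. -/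
theorem case_one (G : SimpleGraph V) (U : Finset V) (C : Finset ι) (n : ι → ℕ) (f : V → ι)
    (a b : ι) (A T : Finset ι) (hprop : Proper G U C f) (hAC : A ⊆ C) (hTA : T ⊆ A)
    (hbA : b ∉ A)
    (hcard : ∀ c ∈ C, (cl U f c).card + (if c = a then 1 else 0) =
      n c + (if c = b then 1 else 0))
    (hterm : ∀ w ∈ T, ∀ c ∈ A, c ≠ w → Relation.ReflTransGen (Rw (E G U f) A w) c a)
    (IH' : ∀ y ∈ Bs U f A, ∃ g, Exact G ((Bs U f A).erase y) (C \ A) n g)
    (y z : V) (hs : Solo G U f A T y z) (X : ι) (hX : X ∈ A) (hXz : X ≠ f z)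
    (hmv : Mv G U f z X) : ∃ g, Exact G U C n g := by
  classical
  set W := f z with hW
  have hWT : W ∈ T := hs.2.2.1
  have hyU : y ∈ U := (Finset.mem_filter.1 hs.1).1
  have hyA : f y ∉ A := (Finset.mem_filter.1 hs.1).2
  have hzU : z ∈ U := hs.2.1
  have hzy : z ≠ y := by
    rintro rfl
    exact hyA (hTA hWT)
  set f1 := Function.update f z X with hf1
  set f2 := Function.update f1 y W with hf2
  have hp1 : Proper G U C f1 := hprop.update (hAC hX) hmv
  have hf1ne : ∀ v, v ≠ z → f1 v = f v := fun v hv => by rw [hf1, Function.update_of_ne hv]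
  have hf1z : f1 z = X := by rw [hf1, Function.update_self]
  have hf2ne : ∀ v, v ≠ y → f2 v = f1 v := fun v hv => by rw [hf2, Function.update_of_ne hv]
  have hf2y : f2 y = W := by rw [hf2, Function.update_self]
  have hp2 : Proper G U C f2 := by
    refine hp1.update (hAC (hTA hWT)) ?_
    intro w hw hfw hadj
    have hwz : w ≠ z := by
      rintro rfl
      rw [hf1z] at hfw
      exact hXz hfw
    rw [hf1ne w hwz] at hfw
    exact hwz (hs.unique w hw hfw hadj)
  obtain ⟨l, hl⟩ := exists_path (hterm W hWT X hX hXz)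
  have hlA : ∀ x ∈ X :: l, x ∈ A ∧ x ≠ W :=
    IsPath.all l X hl ⟨hX, hXz⟩ (fun x y h => ⟨h.2.1, h.2.2.2.1⟩)
  have hXl : X ∉ l := by
    cases l with
    | nil => simp
    | cons d l => exact hl.2.1
  have hl2 : IsPath (E G U f2) a X l := by
    refine IsPath.mono l X hl ?_
    intro x x' hx hx' hxx ⟨_, _, _, _, w, hw, hwx, hmw⟩
    obtain ⟨hxA, hxW⟩ := hlA x hx
    obtain ⟨hxA', hxW'⟩ := hlA x' (List.mem_cons_of_mem _ hx')
    have hwz : w ≠ z := by
      rintro rfl
      exact hxW (hwx ▸ hW ▸ rfl)
    have hwy : w ≠ y := by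
      rintro rfl
      exact hyA (hwx ▸ hxA)
    refine ⟨w, hw, by rw [hf2ne w hwy, hf1ne w hwz]; exact hwx, ?_⟩
    intro v hv hfv
    have hvy : v ≠ y := by
      rintro rfl
      rw [hf2y] at hfv
      exact hxW' hfv.symm
    rw [hf2ne v hvy] at hfv
    have hvz : v ≠ z := by
      rintro rfl
      rw [hf1z] at hfv
      exact hXl (hfv ▸ hx')
    rw [hf1ne v hvz] at hfv
    exact hmw v hv hfv
  obtain ⟨f3, hp3, h3a, h3b, h3c⟩ := shift G U C a l X f2 hl2 (fun x hx => hAC (hlA x hx).1) hp2
  have hmem : ∀ v, f3 v ∈ A ↔ f2 v ∈ A := by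
    intro v
    by_cases h : f2 v ∈ X :: l
    · exact ⟨fun _ => (hlA _ h).1, fun _ => (hlA _ (h3b v h)).1⟩
    · rw [h3a v h]
  have hBs : Bs U f3 A = (Bs U f A).erase y := by
    ext v
    unfold Bs
    rw [Finset.mem_filter, Finset.mem_erase, Finset.mem_filter, hmem]
    by_cases hvy : v = y
    · subst hvy
      rw [hf2y]
      simp [hTA hWT]
    · rw [hf2ne v hvy]
      by_cases hvz : v = z
      · subst hvz
        rw [hf1z]
        simp only [hX, not_true_eq_false, and_false, false_iff, not_and, not_not]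
        intro _ _
        exact hTA hWT
      · rw [hf1ne v hvz]
        simp [hvy]
  obtain ⟨g, hg⟩ := IH' y hs.1
  rw [← hBs] at hg
  refine combine G U A C n hAC f3 g hp3 hg ?_
  intro c hc
  have h1 := card_cl_update (f := f) (d := X) hzU c
  have h2 := card_cl_update (f := f1) (d := W) hyU c
  rw [hf1ne y hzy.symm] at h2
  rw [← hf1] at h1
  rw [← hf2] at h2
  rw [← hW] at h1
  have h4 := h3c c
  have h5 := hcard c (hAC hc)
  have h6 : c ≠ f y := fun h => hyA (h ▸ hc)
  have h7 : c ≠ b := fun h => hbA (h ▸ hc)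
  rw [if_neg h6] at h2
  rw [if_neg h7] at h5
  omega

/-- Case II: a solo vertex `z` with two nonadjacent special neighbours. -/
theorem case_two (G : SimpleGraph V) (U : Finset V) (C : Finset ι) (n : ι → ℕ) (f : V → ι)
    (a b : ι) (T : Finset ι) (q : ℕ) (hprop : Proper G U C f) (haC : a ∈ C)
    (hTA : T ⊆ Acc G U C f a)
    (hbA : b ∉ Acc G U C f a) (haT : a ∉ T)
    (hcard : ∀ c ∈ C, (cl U f c).card + (if c = a then 1 else 0) =
      n c + (if c = b then 1 else 0))
    (hterm : ∀ w ∈ T, ∀ c ∈ Acc G U C f a, c ≠ w →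
      Relation.ReflTransGen (Rw (E G U f) (Acc G U C f a) w) c a)
    (IH' : ∀ y ∈ Bs U f (Acc G U C f a),
      ∃ g, Exact G ((Bs U f (Acc G U C f a)).erase y) (C \ Acc G U C f a) n g)
    (hdq : ∀ z ∈ U, (∀ c ∈ Acc G U C f a, c ≠ f z → 1 ≤ dg G (cl U f c) z) →
      dg G (Bs U f (Acc G U C f a)) z ≤ q)
    (hCq : q ≤ (C \ Acc G U C f a).card)
    (y1 y2 z : V) (hs1 : Solo G U f (Acc G U C f a) T y1 z)
    (hs2 : Solo G U f (Acc G U C f a) T y2 z) (hy : y1 ≠ y2) (hadj : ¬ G.Adj y1 y2)
    (hz : ∀ c ∈ Acc G U C f a, c ≠ f z → 1 ≤ dg G (cl U f c) z) :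
    ∃ f' X, Near G U C n f' a X ∧
      (C \ Acc G U C f' a).card < (C \ Acc G U C f a).card := by
  classical
  set A := Acc G U C f a with hA
  have hAC : A ⊆ C := fun c hc => (mem_Acc.1 (hA ▸ hc)).1
  set W := f z with hW
  have hWT : W ∈ T := hs1.2.2.1
  have hWA : W ∈ A := hTA hWT
  have hzU : z ∈ U := hs1.2.1
  have hy1U : y1 ∈ U := (Finset.mem_filter.1 hs1.1).1
  have hy1A : f y1 ∉ A := (Finset.mem_filter.1 hs1.1).2
  have hy2U : y2 ∈ U := (Finset.mem_filter.1 hs2.1).1
  have hy2A : f y2 ∉ A := (Finset.mem_filter.1 hs2.1).2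
  have hzy1 : z ≠ y1 := by rintro rfl; exact hy1A hWA
  have hzy2 : z ≠ y2 := by rintro rfl; exact hy2A hWA
  obtain ⟨g, hg⟩ := IH' y1 hs1.1
  -- the class `X`
  obtain ⟨X, hXCA, hX⟩ : ∃ X ∈ C \ A, ¬ (1 ≤ dg G (cl ((Bs U f A).erase y1) g X) z) := by
    by_contra hcon
    push Not at hcon
    have h1 := dg_split G ((Bs U f A).erase y1) g (C \ A) z
    have h2 : (C \ A).card ≤ ∑ c ∈ C \ A, dg G (cl ((Bs U f A).erase y1) g c) z := by
      rw [Finset.card_eq_sum_ones]
      exact Finset.sum_le_sum fun c hc => hcon c hc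
    have h3 : dg G ((Bs U f A).erase y1) z + 1 ≤ dg G (Bs U f A) z := by
      unfold dg
      have : (((Bs U f A).erase y1).filter (fun w => G.Adj z w)) =
          ((Bs U f A).filter (fun w => G.Adj z w)).erase y1 := by
        ext w
        simp only [Finset.mem_filter, Finset.mem_erase]
        tauto
      rw [this, Finset.card_erase_of_mem (Finset.mem_filter.2 ⟨hs1.1, hs1.2.2.2.1.symm⟩)]
      have : 0 < ((Bs U f A).filter (fun w => G.Adj z w)).card :=
        Finset.card_pos.2 ⟨y1, Finset.mem_filter.2 ⟨hs1.1, hs1.2.2.2.1.symm⟩⟩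
      exact (Nat.sub_add_cancel this).le
    have h4 := hdq z hzU hz
    omega
  rw [not_dg] at hX
  obtain ⟨hXC, hXA⟩ := Finset.mem_sdiff.1 hXCA
  have hXW : X ≠ W := fun h => hXA (h ▸ hWA)
  have hgB : ∀ v ∈ U, f v ∉ A → v ≠ y1 → g v ∈ C ∧ g v ∉ A := by
    intro v hv hfv hvy
    have := hg.1.1 v (Finset.mem_erase.2 ⟨hvy, Finset.mem_filter.2 ⟨hv, hfv⟩⟩)
    rwa [Finset.mem_sdiff] at this
  set h0 : V → ι := fun v => if f v ∈ A then f v else g v with hh0
  set h1 := Function.update h0 z X with hh1
  set h2 := Function.update h1 y1 W with hh2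
  have e2y : h2 y1 = W := by rw [hh2, Function.update_self]
  have e2z : h2 z = X := by rw [hh2, Function.update_of_ne hzy1, hh1, Function.update_self]
  have e2A : ∀ v, v ≠ z → v ≠ y1 → f v ∈ A → h2 v = f v := by
    intro v hvz hvy hvA
    rw [hh2, Function.update_of_ne hvy, hh1, Function.update_of_ne hvz, hh0]
    simp only [hvA, if_true]
  have e2B : ∀ v, v ≠ z → v ≠ y1 → f v ∉ A → h2 v = g v := by
    intro v hvz hvy hvA
    rw [hh2, Function.update_of_ne hvy, hh1, Function.update_of_ne hvz, hh0]
    simp only [hvA, if_false]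
  have hp0 : Proper G (U.erase y1) C h0 := by
    refine ⟨?_, ?_⟩
    · intro v hv
      rw [Finset.mem_erase] at hv
      by_cases h : f v ∈ A
      · simp only [hh0, h, if_true]; exact hAC h
      · simp only [hh0, h, if_false]; exact (hgB v hv.2 h hv.1).1
    · intro v hv w hw hvw
      rw [Finset.mem_erase] at hv hw
      by_cases h : f v ∈ A
      · by_cases h' : f w ∈ A
        · simp only [hh0, h, h', if_true]; exact hprop.2 v hv.2 w hw.2 hvw
        · simp only [hh0, h, h', if_true, if_false]
          intro h2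
          exact (hgB w hw.2 h' hw.1).2 (h2 ▸ h)
      · by_cases h' : f w ∈ A
        · simp only [hh0, h, h', if_true, if_false]
          intro h2
          exact (hgB v hv.2 h hv.1).2 (h2 ▸ h')
        · simp only [hh0, h, h', if_false]
          exact hg.1.2 v (Finset.mem_erase.2 ⟨hv.1, Finset.mem_filter.2 ⟨hv.2, h⟩⟩) w
            (Finset.mem_erase.2 ⟨hw.1, Finset.mem_filter.2 ⟨hw.2, h'⟩⟩) hvw
  have hp1 : Proper G (U.erase y1) C h1 := by
    refine hp0.update hXC ?_
    intro w hw hwX hzw
    rw [Finset.mem_erase] at hw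
    by_cases h : f w ∈ A
    · simp only [hh0, h, if_true] at hwX
      exact hXA (hwX ▸ h)
    · simp only [hh0, h, if_false] at hwX
      exact hX w (Finset.mem_erase.2 ⟨hw.1, Finset.mem_filter.2 ⟨hw.2, h⟩⟩) hwX hzw
  have hp2 : Proper G U C h2 := by
    refine hp1.insert (hAC hWA) ?_
    intro w hw hwW hyw
    rw [Finset.mem_erase] at hw
    have hwz : w ≠ z := by
      rintro rfl
      rw [hh1, Function.update_self] at hwW
      exact hXW hwW
    rw [hh1, Function.update_of_ne hwz] at hwW
    by_cases h : f w ∈ A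
    · simp only [hh0, h, if_true] at hwW
      exact hwz (hs1.unique w hw.2 hwW hyw)
    · simp only [hh0, h, if_false] at hwW
      exact (hgB w hw.2 h hw.1).2 (hwW ▸ hWA)
  -- classes of `h2`
  have clA : ∀ x ∈ A, x ≠ W → ∀ v ∈ U, (h2 v = x ↔ f v = x) := by
    intro x hx hxW v hv
    by_cases hvz : v = z
    · subst hvz
      rw [e2z]
      constructor
      · intro h; exact absurd (h ▸ hx) hXA
      · intro h; exact absurd h.symm hxW
    · by_cases hvy : v = y1
      · subst hvy
        rw [e2y]
        constructor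
        · intro h; exact absurd h.symm hxW
        · intro h; exact absurd (h ▸ hx) hy1A
      · by_cases h : f v ∈ A
        · rw [e2A v hvz hvy h]
        · rw [e2B v hvz hvy h]
          constructor
          · intro h'; exact absurd (h' ▸ hx) (hgB v hv h hvy).2
          · intro h'; exact absurd (h' ▸ hx) h
  have clW : ∀ v ∈ U, (h2 v = W ↔ (v = y1 ∨ (f v = W ∧ v ≠ z))) := by
    intro v hv
    by_cases hvz : v = z
    · subst hvz
      rw [e2z]
      constructor
      · intro h; exact absurd h hXW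
      · rintro (h | h)
        · exact absurd h hzy1
        · exact absurd rfl h.2
    · by_cases hvy : v = y1
      · subst hvy
        rw [e2y]
        simp
      · by_cases h : f v ∈ A
        · rw [e2A v hvz hvy h]
          simp [hvz, hvy]
        · rw [e2B v hvz hvy h]
          constructor
          · intro h'; exact absurd (h' ▸ hWA) (hgB v hv h hvy).2
          · rintro (h' | h')
            · exact absurd h' hvy
            · exact absurd (h'.1 ▸ hWA) h
  have hnear : Near G U C n h2 a X := by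
    refine ⟨hp2, haC, hXC, ?_⟩
    intro c hc
    have h5 := hcard c hc
    by_cases hcA : c ∈ A
    · have h6 : c ≠ b := fun h => hbA (h ▸ hcA)
      have h7 : c ≠ X := fun h => hXA (h ▸ hcA)
      rw [if_neg h6] at h5
      rw [if_neg h7, ← h5]
      congr 1
      by_cases hcW : c = W
      · subst hcW
        have h8 : cl U h2 W = insert y1 ((cl U f W).erase z) := by
          ext v
          rw [mem_cl, Finset.mem_insert, Finset.mem_erase, mem_cl]
          constructor
          · rintro ⟨hv, h⟩
            rcases (clW v hv).1 h with h | h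
            · exact Or.inl h
            · exact Or.inr ⟨h.2, hv, h.1⟩
          · rintro (h | h)
            · subst h; exact ⟨hy1U, e2y⟩
            · exact ⟨h.2.1, (clW v h.2.1).2 (Or.inr ⟨h.2.2, h.1⟩)⟩
        have h9 : y1 ∉ (cl U f W).erase z := by
          rw [Finset.mem_erase, mem_cl]
          rintro ⟨_, _, h⟩
          exact hy1A (h ▸ hWA)
        have h10 : z ∈ cl U f W := mem_cl.2 ⟨hzU, hW.symm⟩
        rw [h8, Finset.card_insert_of_notMem h9, Finset.card_erase_of_mem h10]
        have : 0 < (cl U f W).card := Finset.card_pos.2 ⟨z, h10⟩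
        omega
      · congr 1
        ext v
        rw [mem_cl, mem_cl]
        constructor
        · rintro ⟨hv, h⟩; exact ⟨hv, (clA c hcA hcW v hv).1 h⟩
        · rintro ⟨hv, h⟩; exact ⟨hv, (clA c hcA hcW v hv).2 h⟩
    · have h6 : c ≠ a := by
        rintro rfl
        exact hcA (hA ▸ mem_Acc.2 ⟨haC, Relation.ReflTransGen.refl⟩)
      rw [if_neg h6, add_zero]
      rw [← hg.2 c (Finset.mem_sdiff.2 ⟨hc, hcA⟩)]
      have hz' : z ∉ cl ((Bs U f A).erase y1) g c := by
        rw [mem_cl, Finset.mem_erase]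
        rintro ⟨⟨_, h⟩, _⟩
        exact (Finset.mem_filter.1 h).2 hWA
      by_cases hcX : c = X
      · subst hcX
        rw [if_pos rfl]
        have h8 : cl U h2 c = insert z (cl ((Bs U f A).erase y1) g c) := by
          ext v
          rw [mem_cl, Finset.mem_insert, mem_cl, Finset.mem_erase]
          unfold Bs
          rw [Finset.mem_filter]
          constructor
          · rintro ⟨hv, h⟩
            by_cases hvz : v = z
            · exact Or.inl hvz
            · right
              by_cases hvy : v = y1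
              · subst hvy
                rw [e2y] at h
                exact absurd (h ▸ hWA) hcA
              · by_cases hA' : f v ∈ A
                · rw [e2A v hvz hvy hA'] at h
                  exact absurd (h ▸ hA') hcA
                · rw [e2B v hvz hvy hA'] at h
                  exact ⟨⟨hvy, hv, hA'⟩, h⟩
          · rintro (h | ⟨⟨hvy, hv, hA'⟩, h⟩)
            · subst h; exact ⟨hzU, e2z⟩
            · have hvz : v ≠ z := by rintro rfl; exact hA' hWA
              exact ⟨hv, by rw [e2B v hvz hvy hA']; exact h⟩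
        rw [h8, Finset.card_insert_of_notMem hz']
      · rw [if_neg hcX, add_zero]
        congr 1
        ext v
        rw [mem_cl, mem_cl, Finset.mem_erase]
        unfold Bs
        rw [Finset.mem_filter]
        constructor
        · rintro ⟨hv, h⟩
          by_cases hvz : v = z
          · subst hvz
            rw [e2z] at h
            exact absurd h.symm hcX
          · by_cases hvy : v = y1
            · subst hvy
              rw [e2y] at h
              exact absurd (h ▸ hWA) hcA
            · by_cases hA' : f v ∈ A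
              · rw [e2A v hvz hvy hA'] at h
                exact absurd (h ▸ hA') hcA
              · rw [e2B v hvz hvy hA'] at h
                exact ⟨⟨hvy, hv, hA'⟩, h⟩
        · rintro ⟨⟨hvy, hv, hA'⟩, h⟩
          have hvz : v ≠ z := by rintro rfl; exact hA' hWA
          exact ⟨hv, by rw [e2B v hvz hvy hA']; exact h⟩
  refine ⟨h2, X, hnear, ?_⟩
  -- accessibility
  have hstep : ∀ x x', Rw (E G U f) A W x x' →
      (x ∈ C ∧ x' ∈ C ∧ E G U h2 x x') := by
    rintro x x' ⟨hxA, hxA', hxW, hxW', w, hw, hwx, hmw⟩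
    refine ⟨hAC hxA, hAC hxA', w, hw, (clA x hxA hxW w hw).2 hwx, ?_⟩
    intro v hv hvx
    exact hmw v hv ((clA x' hxA' hxW' v hv).1 hvx)
  have hacc1 : ∀ c ∈ A, c ≠ W → c ∈ Acc G U C h2 a := by
    intro c hc hcW
    refine mem_Acc.2 ⟨hAC hc, ?_⟩
    exact Relation.ReflTransGen.mono hstep _ _ (hterm W hWT c hc hcW)
  have haccW : W ∈ Acc G U C h2 a := by
    have h3 := (mem_Acc.1 (hA ▸ hWA)).2
    obtain ⟨l, hl⟩ := exists_path h3
    cases l with
    | nil =>
      have : W = a := hl
      exact absurd (this ▸ hWT) haT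
    | cons d l =>
      obtain ⟨hWd, hnot, hrest⟩ := hl
      have hdW : d ≠ W := by
        rintro rfl
        exact hnot (by simp)
      have hdA : d ∈ A := by
        rw [hA]
        exact mem_Acc.2 ⟨hWd.2.1, IsPath.refl_trans l d hrest⟩
      obtain ⟨w, hw, hwW, hmw⟩ := hWd.2.2
      have hwz : w ≠ z := by
        rintro rfl
        exact not_dg.2 hmw (hz d hdA hdW)
      have h4 := (mem_Acc.1 (hacc1 d hdA hdW)).2
      refine mem_Acc.2 ⟨hAC hWA, Relation.ReflTransGen.head ⟨hAC hWA, hAC hdA, w, hw, ?_, ?_⟩ h4⟩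
      · exact (clW w hw).2 (Or.inr ⟨hwW, hwz⟩)
      · intro v hv hvd
        exact hmw v hv ((clA d hdA hdW v hv).1 hvd)
  have hY : h2 y2 = g y2 := e2B y2 hzy2.symm hy.symm hy2A
  have hYA := hgB y2 hy2U hy2A hy.symm
  have haccY : h2 y2 ∈ Acc G U C h2 a := by
    have h4 := (mem_Acc.1 haccW).2
    refine mem_Acc.2 ⟨by rw [hY]; exact hYA.1,
      Relation.ReflTransGen.head ⟨by rw [hY]; exact hYA.1, hAC hWA, y2, hy2U, rfl, ?_⟩ h4⟩
    intro v hv hvW hy2v
    rcases (clW v hv).1 hvW with h | h
    · subst h; exact hadj hy2v.symm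
    · exact h.2 (hs2.unique v hv h.1 hy2v)
  apply Finset.card_lt_card
  rw [Finset.ssubset_iff_of_subset]
  · refine ⟨h2 y2, ?_, ?_⟩
    · rw [Finset.mem_sdiff, hY]; exact hYA
    · rw [Finset.mem_sdiff]
      exact fun h => h.2 haccY
  · intro c hc
    rw [Finset.mem_sdiff] at hc ⊢
    refine ⟨hc.1, fun h => hc.2 ?_⟩
    by_cases hcW : c = W
    · rw [hcW]; exact haccW
    · exact hacc1 c h hcW

end Q127.HS
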