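import Mathlib

/-!
Paths in a relation and shifting of vertices along them (for colourings with prescribed class sizes).
-/

set_option autoImplicit false
set_option linter.unusedSectionVars false

namespace Q127.HS

variable {V ι : Type*} [DecidableEq V] [DecidableEq ι]

/-- `c :: l` is a path without repeated entries in the relation `R` from `c` to `a`. -/
def IsPath (R : ι → ι → Prop) (a : ι) : ι → List ι → Prop
  | c, [] => c = a
  | c, d :: l => R c d ∧ c ∉ d :: l ∧ IsPath R a d l

theorem IsPath.suffix {R : ι → ι → Prop} {a : ι} : ∀ (l : List ι) (d : ι), IsPath R a d l →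
    ∀ c ∈ d :: l, ∃ l', IsPath R a c l' ∧ ∀ x ∈ l', x ∈ l := by
  intro l
  induction l with
  | nil =>
    intro d h c hc
    rw [List.mem_singleton] at hc
    subst hc
    exact ⟨[], h, fun x hx => hx⟩
  | cons e l ih =>
    intro d h c hc
    rw [List.mem_cons] at hc
    rcases hc with rfl | hc
    · exact ⟨e :: l, h, fun x hx => hx⟩
    · obtain ⟨l', h1, h2⟩ := ih e h.2.2 c hc
      exact ⟨l', h1, fun x hx => List.mem_cons_of_mem _ (h2 x hx)⟩

theorem exists_path {R : ι → ι → Prop} {a c : ι} (h : Relation.ReflTransGen R c a) :
    ∃ l, IsPath R a c l := by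
  induction h using Relation.ReflTransGen.head_induction_on with
  | refl => exact ⟨[], rfl⟩
  | @head c d hcd _ ih =>
    obtain ⟨l, hl⟩ := ih
    by_cases hm : c ∈ d :: l
    · obtain ⟨l', h1, _⟩ := IsPath.suffix l d hl c hm
      exact ⟨l', h1⟩
    · exact ⟨d :: l, hcd, hm, hl⟩

theorem IsPath.mono {R S : ι → ι → Prop} {a : ι} : ∀ (l : List ι) (c : ι), IsPath R a c l →
    (∀ x y, x ∈ c :: l → y ∈ l → x ≠ y → R x y → S x y) → IsPath S a c l := by
  intro l
  induction l with
  | nil => intro c h _; exact h
  | cons d l ih =>
    intro c h hRS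
    refine ⟨hRS c d (by simp) (by simp) ?_ h.1, h.2.1, ih d h.2.2 ?_⟩
    · rintro rfl
      exact h.2.1 (by simp)
    · intro x y hx hy hxy hR
      exact hRS x y (List.mem_cons_of_mem _ hx) (List.mem_cons_of_mem _ hy) hxy hR

theorem IsPath.all {R : ι → ι → Prop} {a : ι} {P : ι → Prop} : ∀ (l : List ι) (c : ι),
    IsPath R a c l → P c → (∀ x y, R x y → P y) → ∀ x ∈ c :: l, P x := by
  intro l
  induction l with
  | nil =>
    intro c _ hc _ x hx
    rw [List.mem_singleton] at hx
    exact hx ▸ hc
  | cons d l ih =>
    intro c h hc hR x hx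
    rw [List.mem_cons] at hx
    rcases hx with rfl | hx
    · exact hc
    · exact ih d h.2.2 (hR c d h.1) hR x hx

theorem IsPath.refl_trans {R : ι → ι → Prop} {a : ι} : ∀ (l : List ι) (c : ι),
    IsPath R a c l → Relation.ReflTransGen R c a := by
  intro l
  induction l with
  | nil => intro c h; rw [show c = a from h]
  | cons d l ih => intro c h; exact Relation.ReflTransGen.head h.1 (ih d h.2.2)

/-- The vertices of `U` with colour `c`. -/
def cl (U : Finset V) (f : V → ι) (c : ι) : Finset V := U.filter (fun u => f u = c)

theorem mem_cl {U : Finset V} {f : V → ι} {c : ι} {v : V} : v ∈ cl U f c ↔ v ∈ U ∧ f v = c := by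
  simp [cl]

/-- `f` is a proper colouring of `G[U]` with colours in `C`. -/
def Proper (G : SimpleGraph V) (U : Finset V) (C : Finset ι) (f : V → ι) : Prop :=
  (∀ u ∈ U, f u ∈ C) ∧ ∀ u ∈ U, ∀ v ∈ U, G.Adj u v → f u ≠ f v

/-- The vertex `v` has no neighbour of colour `c` in `U`. -/
def Mv (G : SimpleGraph V) (U : Finset V) (f : V → ι) (v : V) (c : ι) : Prop :=
  ∀ w ∈ U, f w = c → ¬ G.Adj v w

/-- Some vertex of colour `c` has no neighbour of colour `d`. -/
def E (G : SimpleGraph V) (U : Finset V) (f : V → ι) (c d : ι) : Prop :=
  ∃ v ∈ U, f v = c ∧ Mv G U f v d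

theorem Proper.update {G : SimpleGraph V} {U : Finset V} {C : Finset ι} {f : V → ι}
    (hf : Proper G U C f) {v : V} {d : ι} (hd : d ∈ C) (hm : Mv G U f v d) :
    Proper G U C (Function.update f v d) := by
  refine ⟨?_, ?_⟩
  · intro u hu
    by_cases h : u = v
    · subst h; simpa using hd
    · rw [Function.update_of_ne h]; exact hf.1 u hu
  · intro u hu w hw hadj
    by_cases h : u = v
    · subst h
      have hne : w ≠ u := fun h => by subst h; exact (G.loopless.irrefl _ hadj)
      rw [Function.update_self, Function.update_of_ne hne]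
      intro h
      exact hm w hw h.symm hadj
    · by_cases h' : w = v
      · subst h'
        rw [Function.update_self, Function.update_of_ne h]
        intro h2
        exact hm u hu h2 hadj.symm
      · rw [Function.update_of_ne h, Function.update_of_ne h']
        exact hf.2 u hu w hw hadj

theorem card_cl_update {U : Finset V} {f : V → ι} {v : V} {d : ι} (hv : v ∈ U) (x : ι) :
    (cl U (Function.update f v d) x).card + (if x = f v then 1 else 0) =
      (cl U f x).card + (if x = d then 1 else 0) := by
  have key : ∀ g : V → ι, (cl U g x).card =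
      (cl (U.erase v) g x).card + (if g v = x then 1 else 0) := by
    intro g
    have h1 : U = insert v (U.erase v) := (Finset.insert_erase hv).symm
    have hnot : v ∉ cl (U.erase v) g x := by simp [mem_cl]
    by_cases h : g v = x
    · have : cl U g x = insert v (cl (U.erase v) g x) := by
        unfold cl
        conv_lhs => rw [h1]
        rw [Finset.filter_insert, if_pos h]
      rw [this, Finset.card_insert_of_notMem hnot, if_pos h]
    · have : cl U g x = cl (U.erase v) g x := by
        unfold cl
        conv_lhs => rw [h1]
        rw [Finset.filter_insert, if_neg h]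
      rw [this, if_neg h, add_zero]
  have h2 : cl (U.erase v) (Function.update f v d) x = cl (U.erase v) f x := by
    unfold cl
    apply Finset.filter_congr
    intro u hu
    rw [Function.update_of_ne (Finset.ne_of_mem_erase hu)]
  rw [key (Function.update f v d), key f, h2, Function.update_self]
  simp only [eq_comm (a := x)]
  omega

/-- Moving one vertex along each edge of a path. -/
theorem shift (G : SimpleGraph V) (U : Finset V) (C : Finset ι) (a : ι) :
    ∀ (l : List ι) (c : ι) (f : V → ι), IsPath (E G U f) a c l → (∀ x ∈ c :: l, x ∈ C) →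
      Proper G U C f → ∃ f', Proper G U C f' ∧ (∀ v, f v ∉ c :: l → f' v = f v) ∧
        (∀ v, f v ∈ c :: l → f' v ∈ c :: l) ∧
        ∀ x, (cl U f' x).card + (if x = c then 1 else 0) =
          (cl U f x).card + (if x = a then 1 else 0) := by
  intro l
  induction l with
  | nil =>
    intro c f h _ hf
    have : c = a := h
    subst this
    exact ⟨f, hf, fun _ _ => rfl, fun _ h => h, fun _ => rfl⟩
  | cons d l ih =>
    intro c f h hC hf
    obtain ⟨⟨v, hvU, hvc, hmv⟩, hcn, hp⟩ := h
    have hcd : c ≠ d := fun h => hcn (by simp [h])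
    set f1 := Function.update f v d with hf1
    have hne : ∀ w, f w ≠ c → w ≠ v := fun w hw h => hw (by rw [h, hvc])
    have hf1p : Proper G U C f1 := hf.update (hC d (by simp)) hmv
    have hp1 : IsPath (E G U f1) a d l := by
      refine IsPath.mono l d hp ?_
      intro x y hx hy hxy ⟨w, hw, hwx, hmw⟩
      have hxc : x ≠ c := fun h => hcn (h ▸ hx)
      have hwv : w ≠ v := hne w (by rw [hwx]; exact hxc)
      have hyd : y ≠ d := by
        rintro rfl
        cases l with
        | nil => simp at hy
        | cons e l => exact hp.2.1 hy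
      refine ⟨w, hw, ?_, ?_⟩
      · rw [hf1, Function.update_of_ne hwv]; exact hwx
      · intro z hz hzy
        by_cases hzv : z = v
        · subst hzv
          rw [hf1, Function.update_self] at hzy
          exact absurd hzy.symm hyd
        · rw [hf1, Function.update_of_ne hzv] at hzy
          exact hmw z hz hzy
    obtain ⟨f', h1, h2, h3, h4⟩ := ih d f1 hp1 (fun x hx => hC x (List.mem_cons_of_mem _ hx)) hf1p
    refine ⟨f', h1, ?_, ?_, ?_⟩
    · intro w hw
      have hwc : f w ≠ c := fun h => hw (by simp [h])
      have hwv := hne w hwc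
      have h5 : f1 w = f w := by rw [hf1, Function.update_of_ne hwv]
      rw [h2 w, h5]
      rw [h5]
      exact fun h => hw (List.mem_cons_of_mem _ h)
    · intro w hw
      by_cases hwv : w = v
      · subst hwv
        exact List.mem_cons_of_mem _ (h3 w (by rw [hf1, Function.update_self]; simp))
      · have h5 : f1 w = f w := by rw [hf1, Function.update_of_ne hwv]
        rw [List.mem_cons] at hw
        rcases hw with hw | hw
        · by_cases h6 : f1 w ∈ d :: l
          · exact List.mem_cons_of_mem _ (h3 w h6)
          · rw [h2 w h6, h5, hw]; simp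
        · exact List.mem_cons_of_mem _ (h3 w (by rw [h5]; exact hw))
    · intro x
      have h5 := h4 x
      have h6 := card_cl_update (f := f) (d := d) hvU x
      rw [hvc] at h6
      rw [← hf1] at h6
      omega

end Q127.HS
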